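import Pool.Agent.V8H87.MB.Sym

/-!
# Ratios of successive critical values: all Artin twists from the untwisted restrictions

Let `F` be a totally complex number field (CM-case or TR-case), `N/F` a finite Galois extension with
the group `G`, and `M₁` a motive of rank `n` over `F` with coefficients in `E`, for which `m` and
`m + 1` are critical. For `F ⊆ K ⊆ N` let `M₁|_K` be its restriction to `K`.

**Theorem.** Suppose that Q1 holds for the restrictions `M₁|_K` to the fields `F ⊆ K ⊆ N` for which
`Gal(N/K)` is quasi-elementary (an extension of a `p`-group by a cyclic group of order prime to `p`;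
in particular `N/K` is solvable), and that the values of their `L`-functions at `m` and `m + 1` are not
zero. Then:

(1) Let `F ⊆ K ⊆ N` be arbitrary and let `ρ` be an Artin motive over `K`, of any rank and with any
coefficients, which is trivial over `N` and whose induced character `Ind_K^F ρ` is an integral
combination of permutation characters of `G`. Then Q1 holds for `M₁|_K ⊗ ρ`; moreover the factor `e`
can be chosen in the field of coefficients `E` of `M₁`, although the field of coefficients of
`M₁|_K ⊗ ρ` is larger in general. This applies to `ρ = 1`, and so to `M₁|_K` for all `K`.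

(2) If `G` is isomorphic to a symmetric group `S_r`, then ALL Artin motives `ρ` over `K`, for all
`F ⊆ K ⊆ N`, have this property.

So inside an extension with a symmetric Galois group Q1 is invariant under all Artin twists, and even
all twists of all restrictions are controlled by the untwisted restrictions to the fields `K` with
`Gal(N/K)` quasi-elementary: `K` can be the fixed field of an `r`-cycle and `ρ` a character of order
`r`, or the fixed field of any subgroup of `S_r` (every finite group occurs for some `r`) and `ρ` any
representation of it. If `F` has no CM subfield and `K` has one, the shape of the number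
`𝔦^(d/2) Δ` is different over `F` and over `K`; the theorem contains the comparison.

In Lean: `U ≤ G` is the subgroup of the field `K = N^U`; `Ω` is any algebraically closed field which
contains `E`; an Artin motive `ρ` over `K` with coefficients in `Ω` is a representation of `U` of finite
dimension over `Ω`; `a ι U f` and `b ι U f` are the values at `m` and `m + 1` of
`L(s, ι, M₁|_K ⊗ ρ)`, where `f` is the character of `ρ` and `ι : Ω → ℂ`; `a₀ ι U` and `b₀ ι U` are the
values of `L(s, ι, M₁|_K)` for `ι : E → ℂ`. `Formal` is the formalism of Artin.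

The proof uses the theorem of Solomon on permutation characters, the theorem of Brauer, the fact that
for each subgroup `U` of `S_r` and each character `χ` of degree one of `U` the character `Ind χ` is an
integral combination of permutation characters (symmetric functions), and the relation
`Δ_K = q Δ_F ^ [K : F]` with rational `q`; all of this is proved.
-/

set_option autoImplicit false

namespace Pool.Agent.Results.MP_c63a07_nt.ArtinTwistsOfRestrictions

open Pool.Agent.V8H87.MB Module NumberField

/-- **Q1 for Artin twists of all restrictions of `M₁` from Q1 for untwisted restrictions.** -/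
theorem result (F N : Type) [Field F] [NumberField F] [IsTotallyComplex F] [Field N] [NumberField N]
    [Algebra F N] [IsGalois F N] (E : Type) [Field E] [NumberField E] (Ω : Type) [Field Ω]
    [IsAlgClosed Ω] [CharZero Ω] [Algebra E Ω]
    (a b : (Ω →+* ℂ) → (U : Subgroup (N ≃ₐ[F] N)) → (U → Ω) → ℂ) (ha : Formal a) (hb : Formal b)
    (a₀ b₀ : (E →+* ℂ) → Subgroup (N ≃ₐ[F] N) → ℂ)
    (ha₀ : ∀ ι U, a ι U (fun _ => 1) = a₀ (ι.comp (algebraMap E Ω)) U)
    (hb₀ : ∀ ι U, b ι U (fun _ => 1) = b₀ (ι.comp (algebraMap E Ω)) U)
    (hne : ∀ ι U, Pool.Agent.V8H87.EB.Br.QE U → a₀ ι U ≠ 0 ∧ b₀ ι U ≠ 0) (n : ℕ)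
    (hQ : ∀ U, Pool.Agent.V8H87.EB.Br.QE U →
      Q1 (IntermediateField.fixedField U) E n (fun ι => a₀ ι U) (fun ι => b₀ ι U)) :
    (∀ (U : Subgroup (N ≃ₐ[F] N)) (V : Type) [AddCommGroup V] [Module Ω V]
      [FiniteDimensional Ω V] (ρ : Representation Ω U V),
      IsPerm U (fun u => LinearMap.trace Ω V (ρ u)) →
        TwistQ1 E n a b U (fun u => LinearMap.trace Ω V (ρ u)) (finrank Ω V)) ∧
    ((∃ r : ℕ, Nonempty ((N ≃ₐ[F] N) ≃* Equiv.Perm (Fin r))) →
      ∀ (U : Subgroup (N ≃ₐ[F] N)) (V : Type) [AddCommGroup V] [Module Ω V]
        [FiniteDimensional Ω V] (ρ : Representation Ω U V),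
        IsPerm U (fun u => LinearMap.trace Ω V (ρ u)) ∧
          TwistQ1 E n a b U (fun u => LinearMap.trace Ω V (ρ u)) (finrank Ω V)) := by
  have h1 : ∀ (U : Subgroup (N ≃ₐ[F] N)) (V : Type) [AddCommGroup V] [Module Ω V]
      [FiniteDimensional Ω V] (ρ : Representation Ω U V),
      IsPerm U (fun u => LinearMap.trace Ω V (ρ u)) →
        TwistQ1 E n a b U (fun u => LinearMap.trace Ω V (ρ u)) (finrank Ω V) :=
    fun U V _ _ _ ρ h => all_twists a b ha hb a₀ b₀ ha₀ hb₀ hne n hQ U ρ h
  refine ⟨h1, ?_⟩
  rintro ⟨r, ⟨e⟩⟩ U V _ _ _ ρ
  have h2 := isPerm_rep ((Pool.Agent.V8H87.EB.goodGroup_perm r).of_equiv e) U ρ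
  exact ⟨h2, h1 U V ρ h2⟩

end Pool.Agent.Results.MP_c63a07_nt.ArtinTwistsOfRestrictions
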