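import Pool.Agent.V8H93.BR.Sharp

/-!
# Ratios of successive critical values: motives with group actions and automorphisms of fields

Let `F` be a totally complex number field (CM-case or TR-case) and `E` a field of coefficients.

**Theorem 1.** Let a finite group `G` act on a motive `M₀` over `F` with coefficients in `E`, for
example on `M₀ = hⁱ(X)` through an action on the variety `X`; for `H ≤ G` let `M₀^H` be the fixed
part (`hⁱ(X/H)`). Let `H ≤ G` be a subgroup for which `N(H)/H` contains a noncyclic subgroup of order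
`p q`, where `p` and `q` are primes (`p = q` is allowed). If Q1 holds for `M₀^H'` for all `H' > H`,
with nonzero values at `m` and `m + 1`, then it holds for `M₀^H`. So if Q1 holds for `M₀^H` for those
`H` for which all subgroups of order `p q` of `N(H)/H` are cyclic (the `pq`-conditions; then the Sylow
subgroups of `N(H)/H` are cyclic or generalized quaternion groups), then it holds for `M₀^H` for all
`H`, in particular for `M₀`.

**Theorem 2.** Let `N/F` be a finite Galois extension and `M₁` a motive of rank `n` over `F`. If Q1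
holds for the restriction `M₁|_K`, with nonzero values, for those `F ⊆ K ⊆ N` for which all subgroups
of order `p q` of `Aut(K/F)` are cyclic, then it holds for `M₁|_K` for all `F ⊆ K ⊆ N`. Again there is
a version with one step: if `Aut(K/F)` has a noncyclic subgroup of order `p q`, then Q1 for `M₁|_K`
follows from Q1 for `M₁|_K'` for the fields `F ⊆ K' ⊊ K`.

**Theorem 3.** Under the hypothesis of Theorem 2, Q1 holds for all Artin twists `M₁|_K ⊗ ρ`,
`F ⊆ K ⊆ N`, for which `Ind_K^F ρ` is an integral combination of permutation characters of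
`Gal(N/F)`, and for all Artin twists split by `N` if `Gal(N/F)` is a symmetric group; the factor `e` is
in the field of coefficients of `M₁`.

**Theorem 4.** The step of Theorem 1 is sharp: let `G` be a finite group with a fixed point free
representation (a Frobenius complement, e.g. a cyclic or generalized quaternion group, `SL₂(3)`,
`SL₂(5)`). There are numbers with the formalism of Theorem 1 for which Q1 holds for all `H ≠ 1`,
all numbers are different from zero, and Q1 does not hold for `H = 1`.

The proof: if `N(H)/H` contains a noncyclic subgroup `K` of order `p q`, then the permutation character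
of `G/H` is an integral combination of those of `G/H'`, `H' > H`; the partition of `K` into its
subgroups of prime order gives the relation. Compare: for the theorem of Solomon one passes to smaller
subgroups and gets extensions `N/K` which are quasi-elementary; here one passes to larger subgroups and
gets information on `K/F`.
-/

set_option autoImplicit false

open scoped Classical

namespace Pool.Agent.Results.MP_c63a07_nt.AutomorphismGroups

open Pool.Agent.V8H93.BR Pool.Agent.V8H87.MB Module NumberField
open Pool.Agent.V8H93.QI (Weyl)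

/-- Theorem 1, over `F` with coefficients in `E` -/
def FixedParts (F : Type) [Field F] [NumberField F] (E : Type) [Field E] : Prop :=
  ∀ (G : Type) [Group G] [Fintype G] (r : Subgroup G → ℕ) (a b : (E →+* ℂ) → Subgroup G → ℂ),
    MulPerm a → MulPerm b → AddPerm r →
      (∀ H, ¬ PQ2 (Weyl H) → (∀ H', H < H' → NQ1 F E r a b H') → NQ1 F E r a b H) ∧
      (¬ PQ2 G → (∀ H, H ≠ ⊥ → NQ1 F E r a b H) → NQ1 F E r a b ⊥) ∧
      ((∀ H : Subgroup G, PQ2 (Weyl H) → NQ1 F E r a b H) → ∀ H, NQ1 F E r a b H)

section Gal

variable (F N : Type) [Field F] [NumberField F] [IsTotallyComplex F] [Field N] [NumberField N]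
  [Algebra F N] [IsGalois F N] (E : Type) [Field E] [NumberField E] (n : ℕ)

variable {F N} in
/-- the `pq`-conditions for the automorphism group `Aut(K/F)` of `K = N^U` -/
def AutPQ (U : Subgroup (N ≃ₐ[F] N)) : Prop :=
  PQ2 (IntermediateField.fixedField U ≃ₐ[F] IntermediateField.fixedField U)

/-- Theorem 2, for `N / F` and coefficients in `E` -/
def Restrictions : Prop :=
  ∀ a b : (E →+* ℂ) → Subgroup (N ≃ₐ[F] N) → ℂ, MulPerm a → MulPerm b →
    (∀ U, ¬ AutPQ U → (∀ U', U < U' → RQ1 n a b U') → RQ1 n a b U) ∧
    ((∀ U, AutPQ U → RQ1 n a b U) → ∀ U, RQ1 n a b U)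

variable (Ω : Type) [Field Ω] [IsAlgClosed Ω] [CharZero Ω] [Algebra E Ω]
  [Algebra.IsAlgebraic E Ω]

/-- Theorem 3, for `N / F` and coefficients in the algebraic closure `Ω` of `E` -/
def Twists : Prop :=
  ∀ (a b : (Ω →+* ℂ) → (U : Subgroup (N ≃ₐ[F] N)) → (U → Ω) → ℂ)
    (a₀ b₀ : (E →+* ℂ) → Subgroup (N ≃ₐ[F] N) → ℂ), Formal a → Formal b →
    (∀ ι U, a ι U (fun _ => 1) = a₀ (ι.comp (algebraMap E Ω)) U) →
    (∀ ι U, b ι U (fun _ => 1) = b₀ (ι.comp (algebraMap E Ω)) U) →
    (∀ U, AutPQ U → RQ1 n a₀ b₀ U) →
    ∀ (U : Subgroup (N ≃ₐ[F] N)) (V : Type) [AddCommGroup V] [Module Ω V]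
      [FiniteDimensional Ω V] (ρ : Representation Ω U V),
      (IsPerm U (fun u => LinearMap.trace Ω V (ρ u)) ∨
        ∃ s : ℕ, Nonempty ((N ≃ₐ[F] N) ≃* Equiv.Perm (Fin s))) →
        TwistQ1 E n a b U (fun u => LinearMap.trace Ω V (ρ u)) (finrank Ω V)

end Gal

/-- Theorem 4, over `F` with coefficients in `E` -/
def Sharp (F : Type) [Field F] [NumberField F] (E : Type) [Field E] : Prop :=
  ∀ (G : Type) [Group G] [Fintype G], FixedPointFree G →
    ∃ (r : Subgroup G → ℕ) (a b : (E →+* ℂ) → Subgroup G → ℂ), MulPerm a ∧ MulPerm b ∧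
      AddPerm r ∧ (∀ H, H ≠ ⊥ → NQ1 F E r a b H) ∧ (∀ ι H, a ι H ≠ 0 ∧ b ι H ≠ 0) ∧
      ¬ NQ1 F E r a b ⊥

/-- **Q1 for fixed parts under finite groups, and for restrictions, from the cases where the
`pq`-conditions hold.** -/
theorem result (F : Type) [Field F] [NumberField F] [IsTotallyComplex F] (E : Type) [Field E]
    [NumberField E] :
    FixedParts F E ∧
    (∀ (N : Type) [Field N] [NumberField N] [Algebra F N] [IsGalois F N] (n : ℕ),
      Restrictions F N E n ∧
      ∀ (Ω : Type) [Field Ω] [IsAlgClosed Ω] [CharZero Ω] [Algebra E Ω]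
        [Algebra.IsAlgebraic E Ω], Twists F N E n Ω) ∧
    Sharp F E := by
  refine ⟨?_, ?_, ?_⟩
  · intro G _ _ r a b ha hb hr
    refine ⟨fun H hH hup => NQ1_step ha hb hr hH hup, fun hG hup => ?_,
      fun hP H => NQ1_all ha hb hr hP H⟩
    exact NQ1_step ha hb hr (fun h => hG (h.of_equiv (weylBot G))) fun H' h => hup H' h.ne'
  · intro N _ _ _ _ n
    refine ⟨?_, ?_⟩
    · intro a b ha hb
      exact ⟨fun U hU hup => RQ1_step ha hb hU hup, fun hP U => RQ1_all ha hb hP U⟩
    · intro Ω _ _ _ _ _ a b a₀ b₀ ha hb ha₀ hb₀ hP U V _ _ _ ρ hρ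
      have hall := RQ1_all (mulPerm_of_formal ha ha₀) (mulPerm_of_formal hb hb₀) hP
      have h1 : IsPerm U (fun u => LinearMap.trace Ω V (ρ u)) := by
        rcases hρ with h | ⟨s, ⟨e⟩⟩
        · exact h
        · exact isPerm_rep ((Pool.Agent.V8H87.EB.goodGroup_perm s).of_equiv e) U ρ
      exact all_twists a b ha hb a₀ b₀ ha₀ hb₀ (fun ι U _ => (hall U).1 ι) n
        (fun U _ => (hall U).2) U ρ h1
  · intro G _ _ hG
    exact sharp F E G hG

end Pool.Agent.Results.MP_c63a07_nt.AutomorphismGroups
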