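import Pool.Agent.V8H87.MB.Ass

/-!
# Ratios of successive critical values: twists by potentially abelian motives

Let `F` be a totally complex number field (CM-case or TR-case), `N/F` a finite Galois extension, `M₁` a
motive of rank `n` over `F`, and `M₂` a motive over `F` which becomes over `N` a direct sum of motives
of rank one (after an extension of the coefficients), `M₀ = M₁ ⊗ M₂` with coefficients in `E`.

**Theorem.** If Q1 holds for the motives `M₁|_K ⊗ χ`, `F ⊆ K ⊆ N`, with `Gal(N/K)` elementary
(the product of a cyclic group of order prime to `p` and a `p`-group, for some prime `p`) and `χ` a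
motive of rank one over `K` such that `χ|_N` occurs in `M₂|_N`, and if the values of their
`L`-functions at `m` and `m + 1` are not zero, then Q1 holds for `M₀`.

* `M₂ = 1`: Q1 for `M₁` follows from Q1 for the motives `M₁|_K ⊗ χ` with `Gal(N/K)` elementary and
  `χ` of finite order, so it is enough that `M₁|_K` is automorphic for these `K` (potentially
  automorphic motives; the groups `Gal(N/K)` are solvable).
* `M₂` an Artin motive: Artin twists.
* `M₁ = 1`: potentially CM motives; the `χ` are algebraic Hecke characters.

In Lean: `W` is a group with a surjection `π` onto `Gal(N/F)`, `Ω` is the algebraic closure of `E`, and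
`ρ` is a representation of `W` over `Ω` whose restriction to `ker π` is a sum of characters. (`W` is the
group of `Ω`-points of the motivic Galois group of `F`, `ρ` is given by `M₂`, and the subgroup `K` of
`W`, `ker π ⊆ K`, is the group for the field `N^{π(K)}`, also denoted by `K`; for an Artin motive `M₂`
one can take `W = Gal(N/F)`.) `a ι K χ` and `b ι K χ` are the values at `m` and `m + 1` of
`L(s, ι, M₁|_K ⊗ χ)` for `ι : Ω → ℂ`, and `A ι`, `B ι` are the values of `L(s, ι, M₀)` for
`ι : E → ℂ`.

The proof contains a proof of the theorem of Brauer for the representations `ρ`, the relation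
`Δ_K = q Δ_F ^ [K : F]` with rational `q` (for `F` without CM subfields and `K` with CM subfields this
says that `[K : K_1]` is even), and the descent of the field of coefficients.
-/

set_option autoImplicit false

namespace Pool.Agent.Results.MP_c63a07_nt.PotentiallyAbelianTwists

open Pool.Agent.V8H87.MB Module NumberField

/-- **Q1 for `M₁ ⊗ M₂` with a potentially abelian motive `M₂`.** -/
theorem result (F N : Type) [Field F] [NumberField F] [IsTotallyComplex F] [Field N] [NumberField N]
    [Algebra F N] [IsGalois F N] (W : Type) [Group W] (π : W →* (N ≃ₐ[F] N))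
    (hπ : Function.Surjective π) (E : Type) [Field E] [NumberField E] (V : Type) [AddCommGroup V]
    [Module (AlgebraicClosure E) V] [FiniteDimensional (AlgebraicClosure E) V]
    (ρ : Representation (AlgebraicClosure E) W V) (hρ : Diag ρ π.ker)
    (a b : (AlgebraicClosure E →+* ℂ) → (K : Subgroup W) → (K →* (AlgebraicClosure E)ˣ) → ℂ)
    (A B : (E →+* ℂ) → ℂ) (hA : Artin π ρ a A) (hB : Artin π ρ b B)
    (hne : ∀ ι K χ, Occ π ρ K χ → a ι K χ ≠ 0 ∧ b ι K χ ≠ 0) (n : ℕ)
    (hQ : ∀ K χ, Occ π ρ K χ → Q1 (IntermediateField.fixedField (K.map π)) (AlgebraicClosure E)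
      n (fun ι => a ι K χ) (fun ι => b ι K χ)) :
    (∀ ι, A ι ≠ 0 ∧ B ι ≠ 0) ∧ Q1 F E (n * finrank (AlgebraicClosure E) V) A B :=
  q1_main π ρ hπ hρ a b A B hA hB hne n hQ

end Pool.Agent.Results.MP_c63a07_nt.PotentiallyAbelianTwists
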