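import Pool.Agent.V8H84.OM.Sq
import Pool.Agent.V8H84.OM.Disc

set_option autoImplicit false

/-!
# The near central ratio of critical values for self-dual and conjugate self-dual motives

Let `M₀` be a motive of even weight `2 m` over the totally complex number field `F` with coefficients in `E`, such
that `Res M₀` has no middle Hodge type. Then `m` and `m + 1` are critical. We consider two cases. (As in the
problem, `d_F` is the degree of `F`; the discriminant is `disc F`.)

(A) `E` is totally real and there is a symmetric perfect pairing `M₀ ⊗ M₀ → E(-2 m)`. (Since `E` is totally real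
and the weight is even, a polarization is such a pairing.)

(B) `F` is a CM field, `E` is arbitrary, and there is a perfect pairing `M₀ ⊗ M₀^c → E(-2 m)` which makes the
restriction of scalars to the maximal real subfield `F₀` orthogonal. (This is the case of the motives of regular
algebraic, conjugate self-dual cuspidal representations, the weight being even.)

In both cases the functional equation relates the values of the `L`-function at `m` and at `m + 1`, the ratio is
`± |disc F| ^ (n / 2) * √(N f)`, where `f` is the conductor and `n` the rank. The norm `N f` of the conductor is a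
square, and Q1 is true at `m`; it is true for all pairs of critical integers if `(m - 1, m + 1)` is a Hodge type.

The proof in case (A): `f` has the parity of the conductor of the determinant, a quadratic character which belongs
to some `F(√d)`, so it is to be shown that the norm of `d` is a square. By the Hodge filtration the de Rham form
over `E ⊗ F` has the discriminant `± 1` up to squares, therefore `d δ = ± □` in `E ⊗ F` for the discriminant `δ` of
the Betti form. So the norm of `d` is the square of an element `r` of `E`, and one has to show that `r` is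
rational. The number `δ` is totally positive (Hodge decomposition, no middle type) and norms from `E ⊗ F` to `E`
are totally positive (`F` is totally complex), so `r` is, up to its sign, positive at all embeddings of `E`.

In case (B) the conductor comes from `F₀`, and `√|disc F|` is `𝔦 ^ (d_F / 2) Δ_F` up to a rational number.
-/

namespace Pool.Agent.Results.MP_c63a07_nt.SelfDualMotives

open scoped TensorProduct nonZeroDivisors
open Module NumberField Matrix
open Pool.Agent.V8H87.MB (IsDelta)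

/-- The functional equation of the completed `L`-functions `L ι`, `ι` an embedding of the field `E` of
coefficients, for `s ↦ 2 m + 1 - s`, with the conductor `N` (over `ℚ`) and the root number `w`. The root number
is the same for all `ι`, by Deligne's theorem on the local constants of orthogonal representations. -/
def Functional {E : Type} [Field E] (L : (E →+* ℂ) → ℂ → ℂ) (m : ℤ) (N : ℕ) (w : ℤˣ) : Prop :=
  ∀ (ι : E →+* ℂ) (s : ℂ), AnalyticAt ℂ (L ι) s → AnalyticAt ℂ (L ι) (2 * m + 1 - s) →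
    L ι s = ((w : ℤ) : ℂ) * ((N : ℂ) ^ ((2 * (m : ℂ) + 1) / 2 - s)) * L ι (2 * m + 1 - s)

/-- Case (A). What is used of a motive `M₀` over `F` with coefficients in `E`, of rank `2 k` and weight `2 m`, with
a symmetric perfect pairing `M₀ ⊗ M₀ → E(-2 m)` and without Hodge type `(m, m)`. -/
structure Orthogonal (F E : Type) [Field F] [NumberField F] [Field E] [NumberField E] (k : ℕ)
    (m : ℤ) where
  /-- the Hodge types -/
  types : Set (ℤ × ℤ)
  types_weight : ∀ t ∈ types, t.1 + t.2 = 2 * m ∧ t.1 ≠ t.2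
  /-- the Gram matrix of the pairing on the Betti realization, a vector space over `E` (for one
  embedding `F → ℂ`; a power of `2 π i` is omitted) -/
  betti : Matrix (Fin k ⊕ Fin k) (Fin k ⊕ Fin k) E
  betti_symm : bettiᵀ = betti
  betti_det : betti.det ≠ 0
  /-- The Hodge decomposition for an embedding of `E` in `ℝ`: the columns of `v` are a basis of
  `Fil ^ (m + 1)`, the sum of the parts of type `(p, q)` with `p > q`. The form vanishes on it, and
  together with its complex conjugate it is everything, because there is no type `(m, m)`. -/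
  hodge : ∀ ι : E →+* ℝ, ∃ v : Matrix (Fin k ⊕ Fin k) (Fin k) ℂ,
    (fromCols v (v.map star)).det ≠ 0 ∧ vᵀ * betti.map (fun e => (ι e : ℂ)) * v = 0
  /-- The Gram matrix of the pairing on the de Rham realization, a free module over `E ⊗ F`, in a
  basis whose first half is a basis of `Fil ^ (m + 1)`, on which the form vanishes, is
  `(0, B; Bᵀ, C)`. -/
  B : Matrix (Fin k) (Fin k) (E ⊗[ℚ] F)
  C : Matrix (Fin k) (Fin k) (E ⊗[ℚ] F)
  B_unit : IsUnit B.det
  /-- The Galois group of `F` acts on the determinant of the étale realizations (up to the twist) by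
  the character of `F(√d)`, -/
  d : F
  d_ne : d ≠ 0
  /-- so that the discriminants of the two forms differ by `d` and a square. -/
  comparison : ∃ y : E ⊗[ℚ] F, IsUnit y ∧
    (betti.det ⊗ₜ d) * y ^ 2 = (fromBlocks 0 B Bᵀ C).det
  /-- the conductor of `M₀` -/
  conductor : Ideal (𝓞 F)
  conductor_ne : conductor ≠ ⊥
  /-- The exponents of the conductor have the parity of those of the determinant (Serre), that is of
  the valuations of `d`. -/
  parity : ∃ 𝔞 : FractionalIdeal (𝓞 F)⁰ F,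
    (conductor : FractionalIdeal (𝓞 F)⁰ F) = FractionalIdeal.spanSingleton (𝓞 F)⁰ d * 𝔞 ^ 2
  /-- the completed `L`-functions -/
  L : (E →+* ℂ) → ℂ → ℂ
  /-- the root number -/
  sign : ℤˣ
  /-- the functional equation; the conductor of `Res M₀` is `|disc F| ^ (2 k) N(f)` -/
  functional : Functional L m ((discr F).natAbs ^ (2 * k) * Ideal.absNorm conductor) sign

/-- Case (B). What is used of a motive `M₀` over the CM field `F` with coefficients in `E`, of rank `n` and weight
`2 m`, with a perfect pairing `M₀ ⊗ M₀^c → E(-2 m)` such that the restriction of scalars to the maximal real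
subfield `F₀` is orthogonal, and such that `Res M₀` has no Hodge type `(m, m)`. -/
structure ConjOrthogonal (F E : Type) [Field F] [NumberField F] [Field E] (n : ℕ) (m : ℤ) where
  /-- the Hodge types -/
  types : Set (ℤ × ℤ)
  types_weight : ∀ t ∈ types, t.1 + t.2 = 2 * m ∧ t.1 ≠ t.2
  /-- the conductor of `M₀` -/
  conductor : Ideal (𝓞 F)
  /-- The conductor is `𝔤 𝓞_F` for an ideal `𝔤` of `F₀`: the exponents at conjugate primes are equal,
  and the exponents at the primes that are ramified over `F₀` are even (by the parity of conductors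
  for the orthogonal motive over `F₀`, whose determinant is the `n`-th power of the character of
  `F / F₀`). -/
  𝔤 : Ideal (𝓞 (maximalRealSubfield F))
  𝔤_ne : 𝔤 ≠ ⊥
  conductor_eq : conductor = 𝔤.map (algebraMap (𝓞 (maximalRealSubfield F)) (𝓞 F))
  /-- the completed `L`-functions -/
  L : (E →+* ℂ) → ℂ → ℂ
  /-- the root number -/
  sign : ℤˣ
  /-- the functional equation; the conductor of `Res M₀` is `|disc F| ^ n N(f)` -/
  functional : Functional L m ((discr F).natAbs ^ n * Ideal.absNorm conductor) sign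

/-- the integer `j` is critical for these Hodge types: `p < j ≤ q` or `q < j ≤ p` for all `(p, q)` -/
def Critical (T : Set (ℤ × ℤ)) (j : ℤ) : Prop := ∀ t ∈ T, min t.1 t.2 < j ∧ j ≤ max t.1 t.2

/-- all the functions are holomorphic at `j` -/
def HolAt {E : Type} [Field E] (L : (E →+* ℂ) → ℂ → ℂ) (j : ℤ) : Prop :=
  ∀ ι : E →+* ℂ, AnalyticAt ℂ (L ι) (j : ℂ)

/-- The equality of Q1 for the integer `j`: `L(j) = (e ⊗ 1) (𝔦 ^ (d_F / 2) Δ_F) ^ n L(j + 1)` with one
`e ∈ E^×`, for every value `x` of `Δ_F`. -/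
def Q1 (F : Type) [Field F] [NumberField F] {E : Type} [Field E] (n : ℕ)
    (L : (E →+* ℂ) → ℂ → ℂ) (j : ℤ) : Prop :=
  ∀ x : ℂ, IsDelta F x → ∃ e : E, e ≠ 0 ∧ ∀ ι : E →+* ℂ,
    L ι j = ι e * (Complex.I ^ (finrank ℚ F / 2) * x) ^ n * L ι ((j : ℂ) + 1)

/-- What is proved for the functions `L`, the weight `2 m` and the Hodge types `T`: `m` and `m + 1` are critical,
Q1 is true for `m`, it is true for `j` if and only if it is true for `2 m - j`, and it is true for all `j` with
`j` and `j + 1` critical if `(m - 1, m + 1)` is a Hodge type (always for functions holomorphic at the integers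
in question). -/
def Conclusion (F : Type) [Field F] [NumberField F] {E : Type} [Field E] (n : ℕ)
    (L : (E →+* ℂ) → ℂ → ℂ) (m : ℤ) (T : Set (ℤ × ℤ)) : Prop :=
  (Critical T m ∧ Critical T (m + 1) ∧ (HolAt L m → HolAt L (m + 1) → Q1 F n L m)) ∧
  (∀ j : ℤ, HolAt L j → HolAt L (j + 1) → HolAt L (2 * m - j) → HolAt L (2 * m - j + 1) →
    (Q1 F n L j ↔ Q1 F n L (2 * m - j))) ∧
  ((m - 1, m + 1) ∈ T → ∀ j : ℤ, Critical T j → Critical T (j + 1) → HolAt L j →
    HolAt L (j + 1) → Q1 F n L j)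

section

variable {F E : Type} [Field F] [NumberField F] [Field E] [NumberField E]

lemma map_rat (ι : E →+* ℂ) (q : ℚ) : ι (algebraMap ℚ E q) = (q : ℂ) := by
  rw [← RingHom.comp_apply]
  exact map_ratCast (ι.comp (algebraMap ℚ E)) q

/-- the square of `Δ_F` is rational -/
lemma delta_sq {x : ℂ} (h : IsDelta F x) : ∃ ρ : ℚ, ρ ≠ 0 ∧ x ^ 2 = ρ := by
  rcases h with ⟨D, δ, y, hD, hδ, hy, hx⟩ | ⟨_, hx⟩
  · have hPI := Pool.Agent.V8H87.MB.PI_of_sq hD hδ
    have h0 : (Algebra.norm ℚ D : ℚ) ≠ 0 := by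
      intro h1
      rw [Algebra.norm_eq_zero_iff] at h1
      rw [h1] at hδ
      exact hPI.1 (pow_eq_zero_iff two_ne_zero |>.1 hδ)
    refine ⟨(Algebra.norm ℚ D : ℚ) ^ (finrank (maximalRealSubfield F) F / 2), pow_ne_zero _ h0, ?_⟩
    rw [hx, ← pow_mul, mul_comm, pow_mul, hy]
    push_cast
    rfl
  · exact ⟨1, one_ne_zero, by rw [hx]; simp⟩

lemma factor_sq (n : ℕ) {x : ℂ} (h : IsDelta F x) : ∃ ρ : ℚ, ρ ≠ 0 ∧
    ((Complex.I ^ (finrank ℚ F / 2) * x) ^ n) ^ 2 = ρ := by
  obtain ⟨ρ, h0, h1⟩ := delta_sq h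
  refine ⟨((-1) ^ (finrank ℚ F / 2) * ρ) ^ n, ?_, ?_⟩
  · apply pow_ne_zero
    exact mul_ne_zero (pow_ne_zero _ (by norm_num)) h0
  · rw [← pow_mul, mul_comm n 2, pow_mul, mul_pow, h1, ← pow_mul, mul_comm (finrank ℚ F / 2) 2,
      pow_mul, Complex.I_sq]
    push_cast
    rfl

lemma factor_rat (k : ℕ) {x : ℂ} (h : IsDelta F x) : ∃ ρ : ℚ, ρ ≠ 0 ∧
    (Complex.I ^ (finrank ℚ F / 2) * x) ^ (2 * k) = ρ := by
  obtain ⟨ρ, h0, h1⟩ := factor_sq k h
  exact ⟨ρ, h0, by rw [mul_comm 2 k, pow_mul, h1]⟩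

/-- the functional equation at `m` -/
lemma center {L : (E →+* ℂ) → ℂ → ℂ} {m : ℤ} {N : ℕ} {w : ℤˣ} (h : Functional L m N w)
    (h0 : HolAt L m) (h1 : HolAt L (m + 1)) (ι : E →+* ℂ) :
    L ι m = ((w : ℤ) : ℂ) * ((Real.sqrt N : ℝ) : ℂ) * L ι ((m : ℂ) + 1) := by
  have e1 : 2 * (m : ℂ) + 1 - m = m + 1 := by ring
  have h2 := h ι m (h0 ι) (by
    rw [e1]
    have := h1 ι
    push_cast at this
    exact this)
  rw [e1] at h2
  rw [h2]
  congr 2
  have e2 : (2 * (m : ℂ) + 1) / 2 - m = ((1 / 2 : ℝ) : ℂ) := by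
    push_cast
    ring
  have e3 : (N : ℂ) = ((N : ℝ) : ℂ) := (Complex.ofReal_natCast N).symm
  rw [e2, e3, ← Complex.ofReal_cpow (Nat.cast_nonneg _), ← Real.sqrt_eq_rpow]

/-- the symmetry -/
lemma q1_symm {L : (E →+* ℂ) → ℂ → ℂ} {m : ℤ} {c : ℕ} {w : ℤˣ} (hf : Functional L m c w)
    (hcN : c ≠ 0) (n : ℕ) (j : ℤ) (h0 : HolAt L j)
    (h1 : HolAt L (j + 1)) (h2 : HolAt L (2 * m - j)) (h3 : HolAt L (2 * m - j + 1))
    (h : Q1 F n L j) : Q1 F n L (2 * m - j) := by
  intro x hx
  obtain ⟨e, he, h4⟩ := h x hx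
  obtain ⟨ρ, hρ0, hρ⟩ := factor_sq n hx
  set X := (Complex.I ^ (finrank ℚ F / 2) * x) ^ n with hX
  have hc0 : (c : ℂ) ≠ 0 := by exact_mod_cast hcN
  have hρ0' : (ρ : ℂ) ≠ 0 := by exact_mod_cast hρ0
  have hX0 : X ≠ 0 := by
    intro h5
    rw [h5, zero_pow two_ne_zero] at hρ
    exact hρ0' hρ.symm
  refine ⟨algebraMap ℚ E (c / ρ) * e⁻¹, ?_, fun ι => ?_⟩
  · apply mul_ne_zero _ (inv_ne_zero he)
    rw [Ne, map_eq_zero]
    exact div_ne_zero (by exact_mod_cast hcN) hρ0
  · have h5 := hf ι j (h0 ι) (by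
      have e1 : 2 * (m : ℂ) + 1 - j = ((2 * m - j + 1 : ℤ) : ℂ) := by push_cast; ring
      rw [e1]
      exact h3 ι)
    have h6 := hf ι ((j : ℂ) + 1) (by
      have := h1 ι
      push_cast at this
      exact this) (by
      have e1 : 2 * (m : ℂ) + 1 - (j + 1) = ((2 * m - j : ℤ) : ℂ) := by push_cast; ring
      rw [e1]
      exact h2 ι)
    have e2 : 2 * (m : ℂ) + 1 - j = ((2 * m - j : ℤ) : ℂ) + 1 := by push_cast; ring
    have e3 : 2 * (m : ℂ) + 1 - (j + 1) = ((2 * m - j : ℤ) : ℂ) := by push_cast; ring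
    have e4 : (2 * (m : ℂ) + 1) / 2 - j = ((2 * (m : ℂ) + 1) / 2 - (j + 1)) + 1 := by ring
    rw [e2, e4, Complex.cpow_add _ _ hc0, Complex.cpow_one] at h5
    rw [e3] at h6
    set p : ℂ := (c : ℂ) ^ ((2 * (m : ℂ) + 1) / 2 - (j + 1)) with hp
    have hp0 : p ≠ 0 := by
      rw [hp, Ne, Complex.cpow_eq_zero_iff]
      push Not
      intro h
      exact absurd h hc0
    have hs0 : ((w : ℤ) : ℂ) ≠ 0 := by exact_mod_cast w.ne_zero
    have hιe : ι e ≠ 0 := (map_ne_zero ι).2 he
    have h7 := h4 ι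
    rw [h5, h6] at h7
    have h8 : ι (algebraMap ℚ E (c / ρ) * e⁻¹) = (c : ℂ) / (ρ : ℂ) * (ι e)⁻¹ := by
      rw [map_mul, map_inv₀, map_rat]
      push_cast
      rfl
    rw [h8]
    set u := L ι (((2 * m - j : ℤ) : ℂ)) with hu
    set v := L ι (((2 * m - j : ℤ) : ℂ) + 1) with hv
    have h9 : (c : ℂ) * v = ι e * X * u := by
      have h10 : (((w : ℤ) : ℂ) * p) * ((c : ℂ) * v) = (((w : ℤ) : ℂ) * p) * (ι e * X * u) := by
        linear_combination h7
      exact mul_left_cancel₀ (mul_ne_zero hs0 hp0) h10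
    have h11 : (c : ℂ) / (ρ : ℂ) * (ι e)⁻¹ * X * v = ((c : ℂ) * v) * X / (ρ * ι e) := by
      field_simp
    rw [h11, h9, ← hρ]
    field_simp

lemma conclusion_of {L : (E →+* ℂ) → ℂ → ℂ} {m : ℤ} {c : ℕ} {w : ℤˣ} (hf : Functional L m c w)
    (hcN : c ≠ 0) (n : ℕ) (T : Set (ℤ × ℤ)) (hT : ∀ t ∈ T, t.1 + t.2 = 2 * m ∧ t.1 ≠ t.2)
    (h : HolAt L m → HolAt L (m + 1) → Q1 F n L m) : Conclusion F n L m T := by
  refine ⟨⟨fun t ht => ?_, fun t ht => ?_, h⟩,
    fun j h0 h1 h2 h3 => ⟨q1_symm hf hcN n j h0 h1 h2 h3, fun h => ?_⟩, fun hT j hj hj1 h0 h1 => ?_⟩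
  · obtain ⟨h1, h2⟩ := hT t ht
    omega
  · obtain ⟨h1, h2⟩ := hT t ht
    omega
  · have e1 : 2 * m - (2 * m - j) = j := by ring
    have := q1_symm (F := F) hf hcN n (2 * m - j) h2 h3 (by rw [e1]; exact h0)
      (by rw [e1]; exact h1) h
    rwa [e1] at this
  · have h2 := hj _ hT
    have h3 := hj1 _ hT
    simp only at h2 h3
    have h4 : min (m - 1) (m + 1) = m - 1 := min_eq_left (by omega)
    have h5 : max (m - 1) (m + 1) = m + 1 := max_eq_right (by omega)
    rw [h4] at h2
    rw [h5] at h3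
    obtain rfl : j = m := by omega
    exact h h0 h1

/-- the norm of the conductor is a square -/
theorem conductor_sq [IsTotallyComplex F] [IsTotallyReal E] {k : ℕ} {m : ℤ}
    (M : Orthogonal F E k m) : ∃ g : ℕ, 0 < g ∧ Ideal.absNorm M.conductor = g ^ 2 := by
  classical
  -- the discriminant of the Betti form is totally positive
  have hδ : ∀ ι : E →+* ℂ, ∃ r : ℝ, 0 < r ∧ ι M.betti.det = r := by
    intro ι
    have hι := IsTotallyReal.complexEmbedding_isReal ι
    obtain ⟨ι', hι'⟩ : ∃ ι' : E →+* ℝ, ∀ e, ι e = (ι' e : ℂ) :=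
      ⟨hι.embedding, fun e => (ComplexEmbedding.IsReal.coe_embedding_apply hι e).symm⟩
    obtain ⟨v, hv1, hv2⟩ := M.hodge ι'
    set S : Matrix (Fin k ⊕ Fin k) (Fin k ⊕ Fin k) ℝ := M.betti.map ι' with hS
    have hdet : S.det = ι' M.betti.det := by
      rw [hS, RingHom.map_det]
      rfl
    have h0 : S.det ≠ 0 := by
      rw [hdet]
      exact (map_ne_zero ι').2 M.betti_det
    have hST : Sᵀ = S := by
      rw [hS, ← Matrix.transpose_map, M.betti_symm]
    have h1 : M.betti.map (fun e => (ι' e : ℂ)) = S.map (fun x => (x : ℂ)) := by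
      rw [hS, Matrix.map_map]
      rfl
    rw [h1] at hv2
    have h2 := Pool.Agent.V8H84.OM.betti_pos k S hST h0 v hv1 hv2
    exact ⟨S.det, h2, by rw [hι', hdet]⟩
  obtain ⟨y, hy, hcomp⟩ := M.comparison
  rw [Pool.Agent.V8H84.OM.det_hyp] at hcomp
  obtain ⟨q, hq0, hq⟩ := Pool.Agent.V8H84.OM.norm_sq M.d M.betti.det hδ _
    (Pool.Agent.V8H84.OM.sw_det (E ⊗[ℚ] F) k) y M.B.det hy M.B_unit hcomp
  obtain ⟨𝔞, h𝔞⟩ := M.parity
  have h1 := congrArg FractionalIdeal.absNorm h𝔞
  rw [map_mul, map_pow, FractionalIdeal.coeIdeal_absNorm, FractionalIdeal.absNorm_span_singleton,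
    hq, abs_of_nonneg (sq_nonneg q), ← mul_pow] at h1
  have h2 : IsSquare ((Ideal.absNorm M.conductor : ℕ) : ℚ) := ⟨q * FractionalIdeal.absNorm 𝔞, by
    rw [h1, pow_two]⟩
  obtain ⟨g, hg⟩ := Rat.isSquare_natCast_iff.1 h2
  refine ⟨g, ?_, by rw [hg, pow_two]⟩
  have h3 : Ideal.absNorm M.conductor ≠ 0 := by
    rw [Ne, Ideal.absNorm_eq_zero_iff]
    exact M.conductor_ne
  rcases Nat.eq_zero_or_pos g with h4 | h4
  · rw [h4] at hg
    exact absurd (by simpa using hg) h3
  · exact h4

lemma discr_natAbs_ne (F : Type) [Field F] [NumberField F] : (discr F).natAbs ≠ 0 :=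
  Int.natAbs_ne_zero.2 (discr_ne_zero F)

/-- case (A): the ratio -/
lemma value_A {k : ℕ} {m : ℤ} (M : Orthogonal F E k m)
    (g : ℕ) (hg : Ideal.absNorm M.conductor = g ^ 2) (h0 : HolAt M.L m) (h1 : HolAt M.L (m + 1))
    (ι : E →+* ℂ) : M.L ι m = ((M.sign : ℤ) : ℂ) * (((discr F).natAbs ^ k * g : ℕ) : ℂ) *
      M.L ι ((m : ℂ) + 1) := by
  rw [center M.functional h0 h1 ι]
  congr 2
  have e3 : (((discr F).natAbs ^ (2 * k) * Ideal.absNorm M.conductor : ℕ) : ℝ) =
      (((discr F).natAbs ^ k * g : ℕ) : ℝ) ^ 2 := by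
    rw [hg]
    push_cast
    ring
  rw [e3, Real.sqrt_sq (Nat.cast_nonneg _)]
  exact Complex.ofReal_natCast _

lemma q1_A [IsTotallyComplex F] [IsTotallyReal E] {k : ℕ} {m : ℤ} (M : Orthogonal F E k m)
    (h0 : HolAt M.L m) (h1 : HolAt M.L (m + 1)) : Q1 F (2 * k) M.L m := by
  obtain ⟨g, hg0, hg⟩ := conductor_sq M
  intro x hx
  obtain ⟨ρ, hρ0, hρ⟩ := factor_rat k hx
  refine ⟨algebraMap ℚ E (((M.sign : ℤ) : ℚ) * (((discr F).natAbs ^ k * g : ℕ) : ℚ) / ρ), ?_,
    fun ι => ?_⟩
  · rw [Ne, map_eq_zero]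
    apply div_ne_zero _ hρ0
    apply mul_ne_zero
    · exact_mod_cast M.sign.ne_zero
    · have : (discr F).natAbs ^ k * g ≠ 0 :=
        mul_ne_zero (pow_ne_zero _ (discr_natAbs_ne F)) hg0.ne'
      exact_mod_cast this
  · have h3 : (ρ : ℂ) ≠ 0 := by exact_mod_cast hρ0
    rw [value_A M g hg h0 h1 ι, hρ, map_rat]
    push_cast
    field_simp

lemma cond_A_ne {k : ℕ} {m : ℤ} (M : Orthogonal F E k m) :
    (discr F).natAbs ^ (2 * k) * Ideal.absNorm M.conductor ≠ 0 := by
  apply mul_ne_zero (pow_ne_zero _ (discr_natAbs_ne F))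
  rw [Ne, Ideal.absNorm_eq_zero_iff]
  exact M.conductor_ne

lemma absNorm_B [IsCMField F] {n : ℕ} {m : ℤ} (M : ConjOrthogonal F E n m) :
    Ideal.absNorm M.conductor = (Ideal.absNorm M.𝔤) ^ 2 := by
  rw [M.conductor_eq, Ideal.absNorm_algebraMap]
  congr 1
  have h1 := Algebra.IsQuadraticExtension.finrank_eq_two (maximalRealSubfield F) F
  rw [← h1]
  exact (IsFractionRing.finrank_eq (𝓞 (maximalRealSubfield F))
    (maximalRealSubfield F) (𝓞 F) F).symm

lemma cond_B_ne [IsCMField F] {n : ℕ} {m : ℤ} (M : ConjOrthogonal F E n m) :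
    (discr F).natAbs ^ n * Ideal.absNorm M.conductor ≠ 0 := by
  apply mul_ne_zero (pow_ne_zero _ (discr_natAbs_ne F))
  rw [absNorm_B]
  apply pow_ne_zero
  rw [Ne, Ideal.absNorm_eq_zero_iff]
  exact M.𝔤_ne

/-- case (B): the ratio -/
lemma value_B [IsCMField F] {n : ℕ} {m : ℤ} (M : ConjOrthogonal F E n m) {x : ℂ}
    (hx : IsDelta F x) : ∃ r : ℚ, r ≠ 0 ∧ (HolAt M.L m → HolAt M.L (m + 1) → ∀ ι : E →+* ℂ,
      M.L ι m = r * (Complex.I ^ (finrank ℚ F / 2) * x) ^ n * M.L ι ((m : ℂ) + 1)) := by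
  obtain ⟨r, hr0, hr⟩ := Pool.Agent.V8H84.OM.sqrt_discr hx
  refine ⟨((M.sign : ℤ) : ℚ) * r ^ n * (Ideal.absNorm M.𝔤 : ℕ), ?_, fun h0 h1 ι => ?_⟩
  · apply mul_ne_zero
    · apply mul_ne_zero
      · exact_mod_cast M.sign.ne_zero
      · exact pow_ne_zero _ hr0
    · have : Ideal.absNorm M.𝔤 ≠ 0 := by
        rw [Ne, Ideal.absNorm_eq_zero_iff]
        exact M.𝔤_ne
      exact_mod_cast this
  · rw [center M.functional h0 h1 ι, absNorm_B]
    have e3 : ((Real.sqrt (((discr F).natAbs ^ n * (Ideal.absNorm M.𝔤) ^ 2 : ℕ) : ℝ) : ℝ) : ℂ) =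
        (r * (Complex.I ^ (finrank ℚ F / 2) * x)) ^ n * (Ideal.absNorm M.𝔤 : ℕ) := by
      rw [← hr]
      have e4 : Real.sqrt (((discr F).natAbs ^ n * (Ideal.absNorm M.𝔤) ^ 2 : ℕ) : ℝ) =
          (Real.sqrt ((discr F).natAbs : ℝ)) ^ n * (Ideal.absNorm M.𝔤 : ℕ) := by
        have e5 : (((discr F).natAbs ^ n * (Ideal.absNorm M.𝔤) ^ 2 : ℕ) : ℝ) =
            ((Real.sqrt ((discr F).natAbs : ℝ)) ^ n * (Ideal.absNorm M.𝔤 : ℕ)) ^ 2 := by
          push_cast
          rw [mul_pow, ← pow_mul, mul_comm n 2, pow_mul, Real.sq_sqrt (Nat.cast_nonneg _)]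
        rw [e5, Real.sqrt_sq (by positivity)]
      rw [e4]
      push_cast
      rfl
    rw [e3, mul_pow]
    push_cast
    ring

/-- There are such data, for all `F`, `E` and `m`, with the Hodge types `(m - 1, m + 1)` and
`(m + 1, m - 1)` (not used below). -/
theorem exists_orthogonal (m : ℤ) : ∃ M : Orthogonal F E 1 m,
    M.types = {(m - 1, m + 1), (m + 1, m - 1)} := by
  classical
  have hd : (discr F).natAbs ≠ 0 := Int.natAbs_ne_zero.2 (discr_ne_zero F)
  obtain ⟨d, hd0, hdet, hsp⟩ : ∃ d : F, d ≠ 0 ∧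
      ((1 : E) ⊗ₜ d : E ⊗[ℚ] F) = (Pool.Agent.V8H84.OM.sw (E ⊗[ℚ] F) 1).det ∧
      (1 : FractionalIdeal (𝓞 F)⁰ F) = FractionalIdeal.spanSingleton (𝓞 F)⁰ d := by
    rcases Pool.Agent.V8H84.OM.sw_det (E ⊗[ℚ] F) 1 with h | h
    · exact ⟨1, one_ne_zero, by rw [h]; rfl, by rw [FractionalIdeal.spanSingleton_one]⟩
    · refine ⟨-1, neg_ne_zero.2 one_ne_zero, by rw [h, TensorProduct.tmul_neg]; rfl, ?_⟩
      have h1 := FractionalIdeal.coeIdeal_span_singleton (S := (𝓞 F)⁰) (P := F) (-1 : 𝓞 F)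
      rw [map_neg, map_one] at h1
      rw [← h1, Ideal.span_singleton_neg, Ideal.span_singleton_one]
      rfl
  refine ⟨{ types := {(m - 1, m + 1), (m + 1, m - 1)}
            types_weight := ?_
            betti := 1
            betti_symm := transpose_one
            betti_det := by rw [det_one]; exact one_ne_zero
            hodge := ?_
            B := 1
            C := 0
            B_unit := by rw [det_one]; exact isUnit_one
            d := d
            d_ne := hd0
            comparison := ⟨1, isUnit_one, by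
              rw [Pool.Agent.V8H84.OM.det_hyp, det_one, det_one, hdet]⟩
            conductor := ⊤
            conductor_ne := top_ne_bot
            parity := ⟨1, by rw [one_pow, mul_one, ← hsp]; rfl⟩
            L := fun _ s =>
              (((discr F).natAbs ^ (2 * 1) * Ideal.absNorm (⊤ : Ideal (𝓞 F)) : ℕ) : ℂ) ^ (-s / 2)
            sign := 1
            functional := ?_ }, rfl⟩
  · intro t ht
    rcases ht with rfl | rfl
    · constructor
      · ring
      · simp only
        omega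
    · constructor
      · ring
      · simp only
        omega
  · intro ι
    refine ⟨fromRows (1 : Matrix (Fin 1) (Fin 1) ℂ) (Complex.I • (1 : Matrix (Fin 1) (Fin 1) ℂ)), ?_, ?_⟩
    · have h1 : fromCols (fromRows (1 : Matrix (Fin 1) (Fin 1) ℂ) (Complex.I • (1 : Matrix (Fin 1) (Fin 1) ℂ)))
          ((fromRows (1 : Matrix (Fin 1) (Fin 1) ℂ) (Complex.I • (1 : Matrix (Fin 1) (Fin 1) ℂ))).map star) =
          fromBlocks (1 : Matrix (Fin 1) (Fin 1) ℂ) 1 (Complex.I • 1) (-(Complex.I • 1)) := by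
        ext i j
        rcases i with i | i <;> rcases j with j | j <;> fin_cases i <;> fin_cases j <;> simp
      rw [h1, det_fromBlocks_one₁₁]
      simp only [Matrix.mul_one, det_unique, Matrix.sub_apply, Matrix.neg_apply, Matrix.smul_apply,
        Matrix.one_apply, smul_eq_mul, if_true, mul_one]
      intro h2
      have h3 := congrArg Complex.im h2
      simp at h3
      norm_num at h3
    · ext i j
      fin_cases i
      fin_cases j
      simp [Matrix.mul_apply, Fintype.sum_sum_type, Matrix.one_apply]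
  · intro ι s _ _
    have h0 : (((discr F).natAbs ^ (2 * 1) * Ideal.absNorm (⊤ : Ideal (𝓞 F)) : ℕ) : ℂ) ≠ 0 := by
      rw [Ideal.absNorm_top, mul_one]
      exact_mod_cast pow_ne_zero _ hd
    simp only [Units.val_one, Int.cast_one, one_mul]
    rw [← Complex.cpow_add _ _ h0]
    congr 1
    ring

/-- There are such data, for all CM fields `F`, all `E`, `n` and `m`, with the Hodge types
`(m - 1, m + 1)` and `(m + 1, m - 1)` (not used below). -/
theorem exists_conjOrthogonal [IsCMField F] (n : ℕ) (m : ℤ) : ∃ M : ConjOrthogonal F E n m,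
    M.types = {(m - 1, m + 1), (m + 1, m - 1)} := by
  refine ⟨{ types := {(m - 1, m + 1), (m + 1, m - 1)}
            types_weight := ?_
            conductor := ⊤
            𝔤 := ⊤
            𝔤_ne := top_ne_bot
            conductor_eq := (Ideal.map_top _).symm
            L := fun _ s =>
              (((discr F).natAbs ^ n * Ideal.absNorm (⊤ : Ideal (𝓞 F)) : ℕ) : ℂ) ^ (-s / 2)
            sign := 1
            functional := ?_ }, rfl⟩
  · intro t ht
    rcases ht with rfl | rfl
    · constructor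
      · ring
      · simp only
        omega
    · constructor
      · ring
      · simp only
        omega
  · intro ι s _ _
    have h0 : (((discr F).natAbs ^ n * Ideal.absNorm (⊤ : Ideal (𝓞 F)) : ℕ) : ℂ) ≠ 0 := by
      rw [Ideal.absNorm_top, mul_one]
      exact_mod_cast pow_ne_zero _ (discr_natAbs_ne F)
    simp only [Units.val_one, Int.cast_one, one_mul]
    rw [← Complex.cpow_add _ _ h0]
    congr 1
    ring

end

/-- **Main result.** (A) Let `F` be totally complex, `E` totally real and `M` orthogonal of rank `2 k` and weight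
`2 m` without Hodge type `(m, m)`. The norm of the conductor is a square `g ^ 2`, `g > 0`,
`L(m) = ± |disc F| ^ k g L(m + 1)`, and the four statements of `Conclusion` are true: Q1 is true for `m`, and so on.
(B) Let `F` be a CM field and `M` conjugate orthogonal of rank `n`, weight `2 m` without Hodge type `(m, m)`. The
norm of the conductor is a square, `L(m) = r (𝔦 ^ (d_F / 2) Δ_F) ^ n L(m + 1)` with `r ∈ ℚ^×`, and the statements of
`Conclusion` are true. -/
theorem result (F E : Type) [Field F] [NumberField F] [Field E] [NumberField E] (m : ℤ) :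
    (∀ (_ : IsTotallyComplex F) (_ : IsTotallyReal E) (k : ℕ) (M : Orthogonal F E k m),
      (∃ g : ℕ, 0 < g ∧ Ideal.absNorm M.conductor = g ^ 2 ∧
        (HolAt M.L m → HolAt M.L (m + 1) → ∀ ι : E →+* ℂ,
          M.L ι m = ((M.sign : ℤ) : ℂ) * (((discr F).natAbs ^ k * g : ℕ) : ℂ) *
            M.L ι ((m : ℂ) + 1))) ∧
      Conclusion F (2 * k) M.L m M.types) ∧
    (∀ (_ : IsCMField F) (n : ℕ) (M : ConjOrthogonal F E n m),
      Ideal.absNorm M.conductor = (Ideal.absNorm M.𝔤) ^ 2 ∧
      (∀ x : ℂ, IsDelta F x → ∃ r : ℚ, r ≠ 0 ∧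
        (HolAt M.L m → HolAt M.L (m + 1) → ∀ ι : E →+* ℂ,
          M.L ι m = r * (Complex.I ^ (finrank ℚ F / 2) * x) ^ n * M.L ι ((m : ℂ) + 1))) ∧
      Conclusion F n M.L m M.types) := by
  refine ⟨fun _ _ k M => ?_, fun _ n M => ?_⟩
  · obtain ⟨g, hg0, hg⟩ := conductor_sq M
    exact ⟨⟨g, hg0, hg, fun h0 h1 ι => value_A M g hg h0 h1 ι⟩,
      conclusion_of M.functional (cond_A_ne M) _ _ M.types_weight (q1_A M)⟩
  · refine ⟨absNorm_B M, fun x hx => value_B M hx,
      conclusion_of M.functional (cond_B_ne M) _ _ M.types_weight fun h0 h1 x hx => ?_⟩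
    obtain ⟨r, hr0, hr⟩ := value_B M hx
    refine ⟨algebraMap ℚ E r, ?_, fun ι => ?_⟩
    · rw [Ne, map_eq_zero]
      exact hr0
    · rw [map_rat]
      exact hr h0 h1 ι

end Pool.Agent.Results.MP_c63a07_nt.SelfDualMotives
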